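import Mathlib
import Pool.Agent.Helper128.RFW.Main

set_option autoImplicit false

namespace Pool.Agent.Results.MP_b731ff_al.InvolutionReduction

theorem result (G : Type) [Group G] (hper : Monoid.IsTorsion G)
    (hres : ∀ g : G, g ≠ 1 → ∃ N : Subgroup G, N.Normal ∧ N.index ≠ 0 ∧ g ∉ N)
    (hweak : ∀ H : ℕ → Subgroup G, Antitone H →
      ∃ n : ℕ, ∀ m : ℕ, n ≤ m → ((H (m + 1)).subgroupOf (H m)).index ≠ 0) :
    -- (1) if every infinite subgroup has an element of order two, then `G` is finite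
    ((∀ K : Subgroup G, Infinite K → ∃ x ∈ K, orderOf x = 2) → Finite G) ∧
    -- (2) reduction of the general case
    (Infinite G → ∃ K : Subgroup G, Infinite K ∧ (∀ x ∈ K, orderOf x ≠ 2) ∧
      (∀ L : Subgroup G, L ≤ K → Finite L ∨ L.relIndex K ≠ 0) ∧
      (∀ x ∈ K, x ≠ 1 → Set.Finite {y : G | y ∈ K ∧ y * x = x * y}) ∧
      (∀ A : Subgroup G, A ≤ K → (∀ a ∈ A, ∀ b ∈ A, a * b = b * a) → Finite A)) := by
  have hP : Pool.Agent.Helper128.RFW.Per G := fun g => by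
    obtain ⟨n, hn, h⟩ := isOfFinOrder_iff_pow_eq_one.mp (hper g)
    exact ⟨n, hn, h⟩
  have h2 : Infinite G → ∃ K : Subgroup G, Infinite K ∧ (∀ x ∈ K, orderOf x ≠ 2) ∧
      (∀ L : Subgroup G, L ≤ K → Finite L ∨ L.relIndex K ≠ 0) ∧
      (∀ x ∈ K, x ≠ 1 → Set.Finite {y : G | y ∈ K ∧ y * x = x * y}) ∧
      (∀ A : Subgroup G, A ≤ K → (∀ a ∈ A, ∀ b ∈ A, a * b = b * a) → Finite A) := by
    intro hInf
    obtain ⟨K, h1, h2, h3, h4, h5⟩ := Pool.Agent.Helper128.RFW.main G hP hres hInf hweak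
    refine ⟨K, h1, fun x hx ho => ?_, h3, h4, h5⟩
    have h6 : x ^ 2 = 1 := by rw [← ho]; exact pow_orderOf_eq_one x
    have h7 := h2 x hx h6
    rw [h7, orderOf_one] at ho
    omega
  refine ⟨fun hinv => ?_, h2⟩
  by_contra hfin
  rw [not_finite_iff_infinite] at hfin
  obtain ⟨K, hK, hno, -⟩ := h2 hfin
  obtain ⟨x, hx, ho⟩ := hinv K hK
  exact hno x hx ho

end Pool.Agent.Results.MP_b731ff_al.InvolutionReduction
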